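import Pool.Agent.H11.Dice1

open H11.Dice

theorem Pool.Agent.Results.MP_eda2d2_co.Counter.result :
    ∃ p q r a b c d : ℕ, p.Prime ∧ q.Prime ∧ r.Prime ∧ p ≠ q ∧ p ≠ r ∧ q ≠ r ∧ InS a b c d ∧
      (∀ n, 0 ≤ (A p q r a b c d).coeff n) ∧
      (∀ n, 0 ≤ (B p q r (2 - a) (2 - b) (2 - c) (2 - d)).coeff n) :=
  ⟨2, 3, 7, 2, 2, 1, 1, by norm_num, by norm_num, by norm_num, by norm_num, by norm_num,
    by norm_num, by unfold InS T; decide, A_nonneg, B_nonneg⟩
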